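import Pool.Agent.Helper57_K9.Fin9
import Pool.Agent.Helper66_KF.Stmts

/-!
# Squad K9: the primes two and three together
-/

open scoped BigOperators

noncomputable section

namespace Pool.Agent.PP.K9.H57

open Pool.Agent.Helper51_AWC Pool.Agent.Helper79_WRA Pool.Agent.PP Pool.Agent.PP.KF

attribute [local instance] Ideal.Quotient.field

/-- the groups whose order divides four -/
def C4 : (Q : Type) → [Group Q] → Prop := fun Q _ => Nat.card Q ∣ 4

theorem c4_subCl : DF.SubCl C4 := by
  intro Q R _ _ j hj hR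
  have h1 : Nat.card R ∣ 4 := hR
  have h0 : Nat.card R ≠ 0 := by
    intro h2
    rw [h2] at h1
    norm_num at h1
  have : Finite R := Nat.finite_of_card_ne_zero h0
  exact (Subgroup.card_dvd_of_injective j hj).trans h1

theorem cyc_of_card4 {Q : Type} [Group Q] (h : Nat.card Q ∣ 4) (h4 : Nat.card Q ≠ 4) :
    IsCyclic Q := by
  have h3 : Nat.card Q ≤ 4 := Nat.le_of_dvd (by norm_num) h
  have h0 : Nat.card Q ≠ 0 := by
    intro h2
    rw [h2] at h
    norm_num at h
  have : Finite Q := Nat.finite_of_card_ne_zero h0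
  interval_cases h6 : Nat.card Q
  · exact absurd rfl h0
  · have := (Nat.card_eq_one_iff_unique.1 h6).1
    exact isCyclic_of_subsingleton
  · have : Fact (Nat.Prime 2) := ⟨Nat.prime_two⟩
    exact isCyclic_of_prime_card h6
  · norm_num at h
  · exact absurd rfl h4

/-- a noncyclic group of order four embeds into the Klein four group -/
theorem v4_of {Q : Type} [Group Q] (h4 : Nat.card Q = 4) (hc : ¬ IsCyclic Q) : V4 Q := by
  have hfin : Finite Q := Nat.finite_of_card_ne_zero (by rw [h4]; norm_num)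
  have hk : IsKleinFour Q := by
    refine ⟨h4, ?_⟩
    have h1 : Monoid.exponent Q ∣ 4 := h4 ▸ Group.exponent_dvd_nat_card
    have h2 : Monoid.exponent Q ≠ 4 := by
      intro h
      apply hc
      have hab : IsMulCommutative Q := by
        have : Fact (Nat.Prime 2) := ⟨Nat.prime_two⟩
        exact IsPGroup.isMulCommutative_of_card_eq_prime_sq (p := 2) (by rw [h4]; norm_num)
      letI : CommGroup Q := { (inferInstance : Group Q) with
        mul_comm := fun a b => hab.is_comm.comm a b }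
      exact IsCyclic.of_exponent_eq_card (by rw [h, h4])
    have h3 : Monoid.exponent Q ≠ 1 := by
      intro h
      have : Subsingleton Q := Monoid.exp_eq_one_iff.1 h
      have h5 : Nat.card Q ≤ 1 := Finite.card_le_one_iff_subsingleton.2 this
      omega
    have h5 : Monoid.exponent Q ≤ 4 := Nat.le_of_dvd (by norm_num) h1
    interval_cases h6 : Monoid.exponent Q
    · norm_num at h1
    · exact absurd rfl h3
    · rfl
    · norm_num at h1
    · exact absurd rfl h2
  have hk2 : IsKleinFour (Multiplicative (ZMod 2) × Multiplicative (ZMod 2)) := by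
    refine ⟨?_, ?_⟩
    · rw [Nat.card_prod, show Nat.card (Multiplicative (ZMod 2)) = Nat.card (ZMod 2) from rfl,
        Nat.card_zmod]
    · have h1 : Monoid.exponent (Multiplicative (ZMod 2) × Multiplicative (ZMod 2)) ∣ 2 := by
        refine Monoid.exponent_dvd_of_forall_pow_eq_one fun g => ?_
        revert g
        decide
      refine ((Nat.dvd_prime Nat.prime_two).1 h1).resolve_left fun h => ?_
      have : Subsingleton (Multiplicative (ZMod 2) × Multiplicative (ZMod 2)) :=
        Monoid.exp_eq_one_iff.1 h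
      have h7 : ((1, 1) : Multiplicative (ZMod 2) × Multiplicative (ZMod 2)) =
        (Multiplicative.ofAdd 1, 1) := Subsingleton.elim _ _
      exact absurd h7 (by decide)
  obtain ⟨e⟩ := IsKleinFour.nonempty_mulEquiv (G₁ := Q)
    (G₂ := Multiplicative (ZMod 2) × Multiplicative (ZMod 2))
  exact ⟨e.toMonoidHom, e.injective⟩

/-- a subgroup of a group that embeds into the Klein four group -/
theorem v4_mono {Q R : Type} [Group Q] [Group R] (j : Q →* R) (hj : Function.Injective j)
    (h : V4 R) : V4 Q := by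
  obtain ⟨i, hi⟩ := h
  exact ⟨i.comp j, hi.comp hj⟩

/-- GQ4 for the groups of order dividing four -/
theorem gq4' (hC : Gq4Stmt) (hFM : FmgStmt) (hD : CD2.D2aStmt) (hA : AddStmt) :
    ∀ (M : Ideal (integralClosure ℤ ℂ)) [M.IsMaximal],
      (2 : integralClosure ℤ ℂ) ∈ M → ∀ (G : Type) [Group G] [Finite G] (e : G → FF M),
      IsIdem e → Pos 2 e ⊤ → DF.DfE 2 C4 e ⊤ → YY 2 ⊤ e = 0 := by
  intro M _ hM G _ _ e he hp hdf
  have hM' : ((2 : ℕ) : integralClosure ℤ ℂ) ∈ M := by exact_mod_cast hM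
  have hF : GoodF 2 (FF M) := H50.fld 2 Nat.prime_two M hM'
  have : Fact (Nat.Prime 2) := ⟨Nat.prime_two⟩
  refine hA 2 (FF M) hF G ⊤ inferInstance e he fun f hf hef => ?_
  have hfe : mulF f e = f := by rw [H46.mulF_comm hf.1.1, hef]
  have hpf : Pos 2 f ⊤ := H46.pos_mono hf.1 hfe hp
  have hdf' : DF.DfE 2 C4 f ⊤ := DF.DfE.le hF he.1 hf.1.1 hef hdf
  obtain ⟨V, hV⟩ := exists_tp (ℓ := 2) hf.2.1
  have hfm : ∀ Q : Subgroup G, IsPGroup 2 Q → Gd f Q → ∃ g, Q ≤ conjS g V :=
    (hFM 2 M hM' G f hf V hV).1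
  by_cases hV4 : Nat.card V = 4 ∧ ¬ IsCyclic V
  · refine hC M hM G f hf.1 hpf fun Q hQ hQp h1 => ?_
    obtain ⟨g, hg⟩ := hfm Q hQp h1
    have e1 : V ≃* conjS g V := V.equivMapOfInjective _ (MulAut.conj g).injective
    refine v4_mono ((e1.symm.toMonoidHom).comp (Subgroup.inclusion hg)) ?_
      (v4_of hV4.1 hV4.2)
    exact e1.symm.injective.comp (Subgroup.inclusion_injective hg)
  · refine hD 2 (FF M) hF G ⊤ inferInstance f hf.1 hpf
      ⟨f, hf.1, fun x hx => absurd (Subgroup.mem_top x) hx, hf.1.2, fun Q hQ hQp hbr => ?_⟩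
    have h1 : ∃ g ∈ Subgroup.centralizer (Q : Set G), f g ≠ 0 := by
      by_contra hcon
      push Not at hcon
      apply hbr
      funext t
      by_cases ht : t ∈ Subgroup.centralizer (Q : Set G)
      · rw [H66.br_of_mem ht]
        exact hcon t ht
      · rw [H66.br_of_not_mem ht]
        rfl
    have hQ4 : Nat.card Q ∣ 4 := hdf' Q hQ hQp h1
    by_cases h4 : Nat.card Q = 4
    · have hle : 4 ≤ Nat.card V := h4 ▸ hV.mx Q hQp h1
      have hV4' : Nat.card V = 4 :=
        le_antisymm (Nat.le_of_dvd (by norm_num) (hdf' V le_top hV.pg hV.gd)) hle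
      have hcyc : IsCyclic V := by
        by_contra hn
        exact hV4 ⟨hV4', hn⟩
      obtain ⟨g, hg⟩ := hfm Q hQp h1
      have e1 : V ≃* conjS g V := V.equivMapOfInjective _ (MulAut.conj g).injective
      have : IsCyclic (conjS g V) := isCyclic_of_surjective e1.toMonoidHom e1.surjective
      exact isCyclic_of_injective (Subgroup.inclusion hg) (Subgroup.inclusion_injective hg)
    · exact cyc_of_card4 hQ4 h4

/-- the final theorem for the primes two and three and defect groups of order at most `ℓ ^ 2`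
modulo `O_ℓ(N)` -/
theorem finS (relq : DF.RelQEStmt) (fst : DF.FstStmt) (gq4 : Gq4Stmt) (gq9 : Gq9Stmt)
    (hFM : FmgStmt) (hD : CD2.D2aStmt) (hA : AddStmt) :
    ∀ (ℓ : ℕ), ℓ = 2 ∨ ℓ = 3 → ∀ (M : Ideal (integralClosure ℤ ℂ)) [M.IsMaximal],
      (ℓ : integralClosure ℤ ℂ) ∈ M → ∀ (G : Type) [Group G] [Finite G],
      opCore ℓ G ≤ Subgroup.center G → ∀ N : Subgroup G, N.Normal →
      ∀ χ ∈ Irr G, ∀ ψ ∈ Irr N, (∑ᶠ n : N, χ n * starRingEnd ℂ (ψ n)) ≠ 0 →
        LargeDefect ℓ M ψ →
        (∃ (x : N) (P : Subgroup N), ¬ Cong M (omega (MonoidHom.id N) ψ x) 0 ∧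
          P ≤ Subgroup.centralizer ({x} : Set N) ∧ IsPGroup ℓ P ∧
          ¬ ℓ ∣ P.relIndex (Subgroup.centralizer ({x} : Set N)) ∧
          (opCore ℓ N).relIndex P ≤ ℓ ^ 2) →
        altSum ℓ M χ = 0 := by
  intro ℓ hℓ M _ hM G _ _ hc N hN χ hχ ψ hψ hχψ hL hS
  rcases hℓ with rfl | rfl
  · obtain ⟨x, P, hx, hPC, hPp, hPi, h4⟩ := hS
    have hfact : Fact (Nat.Prime 2) := ⟨Nat.prime_two⟩
    have hn := H75.opCore_normal (A := G) 2
    have hnN : (opCore 2 N).Normal := H75.opCore_normal (A := N) 2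
    refine DF.finI relq fst Nat.prime_two hM c4_subCl hc hN ?_ hχ hψ hχψ hL
      ⟨x, P, fun h1 => hx ?_, hPC, hPp, hPi, _, inferInstance,
        QuotientGroup.mk' ((opCore 2 N).subgroupOf P), ?_, ?_⟩
    · intro S _ _ _ _ _ D _ _ _ _ _ _ e he _ hpos hdf
      exact gq4' gq4 hFM hD hA M (by exact_mod_cast hM) D e he hpos hdf
    · have hint : IsIntegral ℤ (omega (MonoidHom.id N) ψ x) :=
        Pool.Agent.Helper51_AWC.omega_integral _ hψ x
      rw [← Pool.Agent.Helper79_WRA.red_eq_iff hint isIntegral_zero, h1,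
        Pool.Agent.Helper79_WRA.red_zero]
    · change Nat.card (P ⧸ (opCore 2 N).subgroupOf P) ∣ 4
      have h1 : Nat.card (P ⧸ (opCore 2 N).subgroupOf P) = (opCore 2 N).relIndex P := rfl
      rw [h1]
      obtain ⟨n, hn⟩ := (IsPGroup.iff_card).1 hPp
      have h2 : (opCore 2 N).relIndex P ∣ 2 ^ n := by
        rw [← hn]
        exact Subgroup.index_dvd_card _
      obtain ⟨k, -, hk⟩ := (Nat.dvd_prime_pow Nat.prime_two).1 h2
      rw [hk] at h4 ⊢
      have hk2 : k ≤ 2 := by
        by_contra h3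
        have h5 : 2 ^ 3 ≤ 2 ^ k := Nat.pow_le_pow_right (by norm_num) (by omega)
        omega
      exact pow_dvd_pow 2 hk2
    · intro u
      rw [QuotientGroup.mk'_apply, QuotientGroup.eq_one_iff]
      exact Subgroup.mem_subgroupOf
  · refine fin9 relq fst gq9 M hM G hc N hN χ hχ ψ hψ hχψ hL ?_
    obtain ⟨x, P, hx, hPC, hPp, hPi, h9⟩ := hS
    exact ⟨x, P, hx, hPC, hPp, hPi, h9.trans (by norm_num)⟩

end Pool.Agent.PP.K9.H57
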