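import Pool.Agent.Helper57_K9.Stmts2
import Pool.Agent.Helper50_PP.Ffa
import Pool.Agent.Helper46_PP.Alg

/-!
# Squad K9, row GQ9: the hypothesis of the reduction theorem for the groups of order dividing nine
-/

open scoped BigOperators

noncomputable section

namespace Pool.Agent.PP.K9.H57

open Pool.Agent.Helper51_AWC Pool.Agent.Helper79_WRA Pool.Agent.PP Pool.Agent.PP.KF

attribute [local instance] Ideal.Quotient.field

/-- the class is closed under subgroups -/
theorem c9_subCl : DF.SubCl C9 := by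
  intro Q R _ _ j hj hR
  have h1 : Nat.card R ∣ 9 := hR
  have h0 : Nat.card R ≠ 0 := by
    intro h2
    rw [h2] at h1
    norm_num at h1
  have : Finite R := Nat.finite_of_card_ne_zero h0
  exact (Subgroup.card_dvd_of_injective j hj).trans h1

/-- a defect group exists -/
theorem exists_tp {ℓ : ℕ} {F G : Type} [Field F] [Group G] [Finite G] {f : G → F} (hf : f ≠ 0) :
    ∃ V : Subgroup G, Tp ℓ f V := by
  have hfin : {Q : Subgroup G | IsPGroup ℓ Q ∧ Gd f Q}.Finite := Set.toFinite _
  obtain ⟨g, hg⟩ : ∃ g, f g ≠ 0 := by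
    by_contra hcon
    push Not at hcon
    exact hf (funext hcon)
  have hne : {Q : Subgroup G | IsPGroup ℓ Q ∧ Gd f Q}.Nonempty := by
    refine ⟨⊥, IsPGroup.of_bot, g, ?_, hg⟩
    rw [Subgroup.mem_centralizer_iff]
    intro x hx
    rw [Subgroup.mem_bot.1 hx, one_mul, mul_one]
  obtain ⟨V, hV, hm⟩ := Set.exists_max_image _ (fun Q : Subgroup G => Nat.card Q) hfin hne
  exact ⟨V, hV.1, hV.2, fun Q hQ hg => hm Q ⟨hQ, hg⟩⟩

/-- a group of order dividing nine and different from nine is cyclic -/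
theorem cyc_of_card {Q : Type} [Group Q] (h : Nat.card Q ∣ 9) (h9 : Nat.card Q ≠ 9) :
    IsCyclic Q := by
  have h3 : Nat.card Q ≤ 9 := Nat.le_of_dvd (by norm_num) h
  have h0 : Nat.card Q ≠ 0 := by
    intro h2
    rw [h2] at h
    norm_num at h
  have : Finite Q := Nat.finite_of_card_ne_zero h0
  interval_cases h6 : Nat.card Q
  · exact absurd rfl h0
  · have := (Nat.card_eq_one_iff_unique.1 h6).1
    exact isCyclic_of_subsingleton
  · norm_num at h
  · have : Fact (Nat.Prime 3) := ⟨Nat.prime_three⟩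
    exact isCyclic_of_prime_card h6
  all_goals first
    | exact absurd rfl h9
    | norm_num at h

/-- GQ9 -/
theorem gq9 (hC : Ct9Stmt) (hFM : FmgStmt) (hD : CD2.D2aStmt) (hA : AddStmt) : Gq9Stmt := by
  intro M _ hM G _ _ hO e he hp hdf
  have hF : GoodF 3 (FF M) := H50.fld 3 Nat.prime_three M hM
  have : Fact (Nat.Prime 3) := ⟨Nat.prime_three⟩
  refine hA 3 (FF M) hF G ⊤ inferInstance e he fun f hf hef => ?_
  have hfe : mulF f e = f := by rw [H46.mulF_comm hf.1.1, hef]
  have hpf : Pos 3 f ⊤ := H46.pos_mono hf.1 hfe hp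
  have hdf' : DF.DfE 3 C9 f ⊤ := DF.DfE.le hF he.1 hf.1.1 hef hdf
  obtain ⟨V, hV⟩ := exists_tp (ℓ := 3) hf.2.1
  by_cases hV9 : Nat.card V = 9 ∧ ¬ IsCyclic V
  · exact hC M hM G hO f hf hpf V hV hV9.1 hV9.2
  · refine hD 3 (FF M) hF G ⊤ inferInstance f hf.1 hpf
      ⟨f, hf.1, fun x hx => absurd (Subgroup.mem_top x) hx, hf.1.2, fun Q hQ hQp hbr => ?_⟩
    have h1 : ∃ g ∈ Subgroup.centralizer (Q : Set G), f g ≠ 0 := by
      by_contra hcon
      push Not at hcon
      apply hbr
      funext t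
      by_cases ht : t ∈ Subgroup.centralizer (Q : Set G)
      · rw [H66.br_of_mem ht]
        exact hcon t ht
      · rw [H66.br_of_not_mem ht]
        rfl
    have hQ9 : Nat.card Q ∣ 9 := hdf' Q hQ hQp h1
    by_cases h9 : Nat.card Q = 9
    · have hle : 9 ≤ Nat.card V := h9 ▸ hV.mx Q hQp h1
      have hV9' : Nat.card V = 9 :=
        le_antisymm (Nat.le_of_dvd (by norm_num) (hdf' V le_top hV.pg hV.gd)) hle
      have hcyc : IsCyclic V := by
        by_contra hn
        exact hV9 ⟨hV9', hn⟩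
      obtain ⟨g, hg⟩ := (hFM 3 M hM G f hf V hV).1 Q hQp h1
      have e1 : V ≃* conjS g V := V.equivMapOfInjective _ (MulAut.conj g).injective
      have : IsCyclic (conjS g V) := isCyclic_of_surjective e1.toMonoidHom e1.surjective
      exact isCyclic_of_injective (Subgroup.inclusion hg) (Subgroup.inclusion_injective hg)
    · exact cyc_of_card hQ9 h9

end Pool.Agent.PP.K9.H57
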