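import Pool.Agent.Helper66_KF.Stmts

/-!
# Squad K9: blocks with defect groups of order `ℓ ^ 2`, in particular `ℓ = 3`

Text: `AWC_K9.md`.  `M` is a maximal ideal of the algebraic integers which contains the prime `ℓ`,
`F = FF M`.  A block `e` is a primitive central idempotent of `F G`; a subgroup `Q` is good for `e`
if `e` does not vanish on `C(Q)`.
-/

open scoped BigOperators

noncomputable section

namespace Pool.Agent.PP.K9

open Pool.Agent.Helper51_AWC Pool.Agent.Helper79_WRA Pool.Agent.PP Pool.Agent.PP.KF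

attribute [local instance] Ideal.Quotient.field

section defs

variable {G H : Type} [Group G] [Group H]

/-- `e` does not vanish on the centraliser of `Q` -/
def Gd {F : Type} [Field F] (e : G → F) (Q : Subgroup G) : Prop :=
  ∃ g ∈ Subgroup.centralizer (Q : Set G), e g ≠ 0

/-- `V` is an `ℓ`-subgroup of maximal order such that `e` does not vanish on `C(V)`, that is, a
defect group if `e` is a block. -/
structure Tp (ℓ : ℕ) {F : Type} [Field F] (e : G → F) (V : Subgroup G) : Prop where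
  pg : IsPGroup ℓ V
  gd : Gd e V
  mx : ∀ Q : Subgroup G, IsPGroup ℓ Q → Gd e Q → Nat.card Q ≤ Nat.card V

/-- `u` has order `ℓ` and `π` is a homomorphism of its centraliser onto `H` with kernel `⟨u⟩`. -/
structure Qt (ℓ : ℕ) (u : G) (π : Cu u →* H) : Prop where
  ord : orderOf u = ℓ
  sur : Function.Surjective π
  ker : ∀ c : Cu u, π c = 1 ↔ (c : G) ∈ Subgroup.zpowers u

/-- the class functions which vanish at the elements that are not `ℓ`-regular -/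
structure Rc (ℓ : ℕ) (p : H → ℂ) : Prop where
  cl : ∀ x y, p (y * x * y⁻¹) = p x
  sg : ∀ x, ¬ Reg ℓ x → p x = 0

/-- the inner product of class functions -/
def ipn (f h : G → ℂ) : ℂ := (Nat.card G : ℂ)⁻¹ * ∑ᶠ x, f x * starRingEnd ℂ (h x)

/-- `A_χ(p) = (1/|H|) ∑ χ(w s) conj(p(π s))`, the sum over the `ℓ`-regular elements `s` of `C` -/
def Av (ℓ : ℕ) {C : Subgroup G} (π : C →* H) (w : G) (p : H → ℂ) (χ : G → ℂ) : ℂ :=
  (Nat.card H : ℂ)⁻¹ * ∑ᶠ (s : C) (_ : Reg ℓ s), χ (w * s) * starRingEnd ℂ (p (π s))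

/-- `χ(g b)` for an element `b` of the group ring of the subgroup `C` -/
def gbv (C : Subgroup G) (g : G) (b : C → ℂ) (χ : G → ℂ) : ℂ := ∑ᶠ c : C, b c * χ (g * c)

/-- the sum of the conjugates of `w b`, `b` a class function of `C`, over the cosets of `C` -/
def trc {F : Type} [Field F] (C : Subgroup G) (w : G) (b : C → F) : G → F :=
  fun g => ∑ᶠ q : G ⧸ C, PP.ext0 C b (w⁻¹ * (q.out⁻¹ * g * q.out))

variable (G) in
/-- the virtual characters -/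
def ZI : AddSubgroup (G → ℂ) := AddSubgroup.closure (Irr G)

variable (M : Ideal (integralClosure ℤ ℂ)) [M.IsMaximal]

/-- the virtual characters in `e` -/
def ZE (e : G → FF M) : AddSubgroup (G → ℂ) := AddSubgroup.closure (IrrE M e)

/-- the character of the projective module `F G e` -/
def pr (e : G → FF M) : G → ℂ := fun g => ∑ᶠ χ ∈ IrrE M e, χ 1 * χ g

/-- The virtual characters in `e` which vanish at the singular elements: the conclusion for blocks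
with defect groups of order three. -/
def D3 (e : G → FF M) : Prop :=
  (∃ p ∈ ZE M e, Rc 3 p ∧ ipn p p = 3 ∧ ∃ c : ℂ, pr M e = c • p) ∨
  ∃ p₁ ∈ ZE M e, ∃ p₂ ∈ ZE M e, Rc 3 p₁ ∧ Rc 3 p₂ ∧ ipn p₁ p₁ = 2 ∧ ipn p₂ p₂ = 2 ∧
    ipn p₁ p₂ = 1 ∧ ipn p₂ p₁ = 1 ∧ ∃ c₁ c₂ : ℂ, pr M e = c₁ • p₁ + c₂ • p₂

end defs

/-! ## 1. Integrality -/

/-- ADP: Adams operations for a prime. -/
def AdpStmt : Prop := ∀ (G : Type) [Group G] [Finite G] (r : ℕ), r.Prime → ∀ χ ∈ Irr G,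
  ∀ η ∈ Irr G, ∃ m : ℤ, ipn (fun g => χ (g ^ r)) η = m

/-- ADA: Adams operations. -/
def AdaStmt : Prop := ∀ (G : Type) [Group G] [Finite G] (N : ℕ), ∀ f ∈ ZI G, ∀ h ∈ ZI G,
  ∃ m : ℤ, ipn (fun g => f (g ^ N)) h = m

/-- PRT: a power which gives the `ℓ'`-part of all elements. -/
def PrtStmt : Prop := ∀ (ℓ : ℕ) [Fact ℓ.Prime] (G : Type) [Group G] [Finite G],
  ∃ N : ℕ, (∀ g : G, Reg ℓ (g ^ N) ∧ ∃ n : ℕ, ((g ^ N)⁻¹ * g) ^ ℓ ^ n = 1) ∧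
    ∀ x y : G, Commute x y → Reg ℓ x → (∃ n : ℕ, y ^ ℓ ^ n = 1) → (x * y) ^ N = x

/-- INT: the numbers `A_χ(p)` are in `ℤ[ζ]`, and for the powers of `u` they are conjugate. -/
def IntStmt : Prop := ∀ (ℓ : ℕ) [Fact ℓ.Prime] (G H : Type) [Group G] [Finite G] [Group H]
  [Finite H] (u : G) (π : Cu u →* H), Qt ℓ u π → ∀ p ∈ ZI H, Rc ℓ p → ∀ χ ∈ Irr G, ∀ ζ : ℂ,
  IsPrimitiveRoot ζ ℓ → ∃ m : ℕ → ℤ, ∀ j : ℕ,
    Av ℓ π (u ^ j) p χ = ∑ i ∈ Finset.range ℓ, (m i : ℂ) * ζ ^ (i * j)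

/-! ## 2. Orthogonality -/

/-- SEC: orthogonality relations. -/
def SecStmt : Prop := ∀ (ℓ : ℕ) [Fact ℓ.Prime] (G H : Type) [Group G] [Finite G] [Group H]
  [Finite H] (u : G) (π : Cu u →* H), Qt ℓ u π → ∀ p q : H → ℂ, Rc ℓ p → Rc ℓ q →
  ∀ w ∈ Subgroup.zpowers u, w ≠ 1 →
    ∑ᶠ χ ∈ Irr G, Av ℓ π w p χ * starRingEnd ℂ (Av ℓ π w q χ) = ℓ * ipn q p ∧
    ∑ᶠ χ ∈ Irr G, Av ℓ π w p χ * χ 1 = 0 ∧
    ∀ w' ∈ Subgroup.zpowers u, w' ≠ 1 → (¬ ∃ t : G, w' = t * w * t⁻¹) →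
      ∑ᶠ χ ∈ Irr G, Av ℓ π w p χ * starRingEnd ℂ (Av ℓ π w' q χ) = 0

/-- CNJ: conjugate elements `w`, `w'` of `⟨u⟩`. -/
def CnjStmt : Prop := ∀ (ℓ : ℕ) [Fact ℓ.Prime] (G H : Type) [Group G] [Finite G] [Group H]
  [Finite H] (u : G) (π : Cu u →* H), Qt ℓ u π →
  ∀ w ∈ Subgroup.zpowers u, w ≠ 1 → ∀ w' ∈ Subgroup.zpowers u, ∀ t : G, w' = t * w * t⁻¹ →
  ∃ τ : H ≃* H, ∀ p : H → ℂ, ∀ χ ∈ Irr G, Av ℓ π w' p χ = Av ℓ π w (fun h => p (τ h)) χ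

/-! ## 3. Traces -/

/-- TRA: an automorphism of order `ℓ ^ a > 1` of a projective lattice whose reduction is free has
trace zero. -/
def TraStmt : Prop := ∀ (ℓ : ℕ) [Fact ℓ.Prime] (M : Ideal (integralClosure ℤ ℂ)) [M.IsMaximal],
  (ℓ : integralClosure ℤ ℂ) ∈ M → ∀ (n : Type) [Fintype n] [DecidableEq n] (P U : Matrix n n ℂ)
  (a : ℕ), 0 < a →
  (∀ i j, P i j ∈ RM M) → (∀ i j, U i j ∈ RM M) → P * P = P → U ^ ℓ ^ a = 1 → U * P = P * U →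
  (∀ v : n → FF M, (P.map (rr M)).mulVec v = v → (U.map (rr M)).mulVec v = v →
    ∃ w, (P.map (rr M)).mulVec w = w ∧
      v = ∑ i ∈ Finset.range (ℓ ^ a), ((U.map (rr M)) ^ i).mulVec w) → (U * P).trace = 0

/-- TRB: the same with an automorphism `V` whose order is prime to `ℓ`. -/
def TrbStmt : Prop := ∀ (ℓ : ℕ) [Fact ℓ.Prime] (M : Ideal (integralClosure ℤ ℂ)) [M.IsMaximal],
  (ℓ : integralClosure ℤ ℂ) ∈ M → ∀ (n : Type) [Fintype n] [DecidableEq n]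
  (P U V : Matrix n n ℂ) (a m : ℕ), 0 < a → ¬ ℓ ∣ m →
  (∀ i j, P i j ∈ RM M) → (∀ i j, U i j ∈ RM M) → (∀ i j, V i j ∈ RM M) → P * P = P →
  U ^ ℓ ^ a = 1 → V ^ m = 1 → U * P = P * U → V * P = P * V → U * V = V * U →
  (∀ v : n → FF M, (P.map (rr M)).mulVec v = v → (U.map (rr M)).mulVec v = v →
    ∃ w, (P.map (rr M)).mulVec w = w ∧
      v = ∑ i ∈ Finset.range (ℓ ^ a), ((U.map (rr M)) ^ i).mulVec w) → (U * V * P).trace = 0

/-- WBO: weak block orthogonality. -/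
def WboStmt : Prop := ∀ (ℓ : ℕ) [Fact ℓ.Prime] (M : Ideal (integralClosure ℤ ℂ)) [M.IsMaximal],
  (ℓ : integralClosure ℤ ℂ) ∈ M → ∀ (G : Type) [Group G] [Finite G] (e : G → FF M), IsIdem e →
  ∀ s g : G, Reg ℓ s → ¬ Reg ℓ g → ∑ᶠ χ ∈ IrrE M e, χ s⁻¹ * χ g = 0

open Classical in
/-- ROT: the restriction to the `ℓ`-regular elements respects the blocks. -/
def RotStmt : Prop := ∀ (ℓ : ℕ) [Fact ℓ.Prime] (M : Ideal (integralClosure ℤ ℂ)) [M.IsMaximal],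
  (ℓ : integralClosure ℤ ℂ) ∈ M → ∀ (G : Type) [Group G] [Finite G] (e : G → FF M), IsIdem e →
  (∀ f ∈ Submodule.span ℂ (IrrE M e),
    (fun g => if Reg ℓ g then f g else 0) ∈ Submodule.span ℂ (IrrE M e)) ∧
  ∀ χ ∈ IrrE M e, ∀ ψ ∈ Irr G, ψ ∉ IrrE M e →
    ∑ᶠ (s : G) (_ : Reg ℓ s), χ s * starRingEnd ℂ (ψ s) = 0

/-- SM2: the second main theorem. -/
def Sm2Stmt : Prop := ∀ (ℓ : ℕ) [Fact ℓ.Prime] (M : Ideal (integralClosure ℤ ℂ)) [M.IsMaximal],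
  (ℓ : integralClosure ℤ ℂ) ∈ M → ∀ (G : Type) [Group G] [Finite G] (u : G), orderOf u = ℓ →
  ∀ g ∈ Cu u, u ∈ Subgroup.zpowers g → ∀ b : Cu u → FF M, IsIdem b → ∀ e : G → FF M, IsIdem e →
  (mulF (fun t : Cu u => e t) b = b → ∀ χ ∈ Irr G, χ ∉ IrrE M e →
    gbv (Cu u) g (eh M b) χ = 0) ∧
  (mulF (fun t : Cu u => e t) b = 0 → ∀ χ ∈ IrrE M e, gbv (Cu u) g (eh M b) χ = 0)

/-! ## 4. Quotients by a central subgroup of order `ℓ` -/

/-- PSI: the characters of the image of an idempotent. -/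
def PsiStmt : Prop := ∀ (M : Ideal (integralClosure ℤ ℂ)) [M.IsMaximal] (A B : Type) [Group A]
  [Finite A] [Group B] [Finite B] (p : A →* B), Function.Surjective p → ∀ b : A → FF M,
  IsCl b → IrrE M (H75.push p b) = {θ | θ ∈ Irr B ∧ (fun a => θ (p a)) ∈ IrrE M b} ∧
    (∀ θ ∈ Irr B, (fun a => θ (p a)) ∈ Irr A)

/-- PUG: good subgroups and quotients by a normal `ℓ`-subgroup. -/
def PugStmt : Prop := ∀ (ℓ : ℕ) (F : Type) [Field F], GoodF ℓ F → ∀ (A B : Type) [Group A]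
  [Finite A] [Group B] [Finite B] (p : A →* B), Function.Surjective p → IsPGroup ℓ p.ker →
  ∀ e : A → F, IsIdem e → ∀ Q : Subgroup A, p.ker ≤ Q → IsPGroup ℓ Q →
    (Gd e Q ↔ Gd (H75.push p e) (Q.map p))

/-- PRG: the number `A_χ` for the projective character. -/
def PrgStmt : Prop := ∀ (ℓ : ℕ) [Fact ℓ.Prime] (M : Ideal (integralClosure ℤ ℂ)) [M.IsMaximal],
  (ℓ : integralClosure ℤ ℂ) ∈ M →
  (∀ (G : Type) [Group G] [Finite G] (e : G → FF M), IsIdem e → Rc ℓ (pr M e)) ∧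
  ∀ (G H : Type) [Group G] [Finite G] [Group H] [Finite H] (u : G) (π : Cu u →* H), Qt ℓ u π →
  ∀ b : Cu u → FF M, IsIdem b → ∀ w ∈ Subgroup.zpowers u, ∀ χ ∈ Irr G,
    Av ℓ π w (pr M (H75.push π b)) χ = gbv (Cu u) w (eh M b) χ

/-- AZR: `A_χ(p)` vanishes outside the block. -/
def AzrStmt : Prop := ∀ (ℓ : ℕ) [Fact ℓ.Prime] (M : Ideal (integralClosure ℤ ℂ)) [M.IsMaximal],
  (ℓ : integralClosure ℤ ℂ) ∈ M → ∀ (G H : Type) [Group G] [Finite G] [Group H] [Finite H]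
  (u : G) (π : Cu u →* H), Qt ℓ u π → ∀ e : G → FF M, IsIdem e → ∀ b : Cu u → FF M, IsIdem b →
  mulF (fun t : Cu u => e t) b = b → ∀ p ∈ Submodule.span ℂ (IrrE M (H75.push π b)), Rc ℓ p →
  ∀ w ∈ Subgroup.zpowers u, w ≠ 1 → ∀ χ ∈ Irr G, χ ∉ IrrE M e → Av ℓ π w p χ = 0

/-- DZO: blocks of defect zero. -/
def DzoStmt : Prop := ∀ (ℓ : ℕ) [Fact ℓ.Prime] (M : Ideal (integralClosure ℤ ℂ)) [M.IsMaximal],
  (ℓ : integralClosure ℤ ℂ) ∈ M → ∀ (G : Type) [Group G] [Finite G] (e : G → FF M), IsBlk e →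
  (∀ Q : Subgroup G, IsPGroup ℓ Q → Gd e Q → Q = ⊥) → ∃ κ : G → ℂ, IrrE M e = {κ} ∧ Rc ℓ κ

/-- CE0: blocks with a central defect group of order `ℓ`. -/
def Ce0Stmt : Prop := ∀ (ℓ : ℕ) [Fact ℓ.Prime] (M : Ideal (integralClosure ℤ ℂ)) [M.IsMaximal],
  (ℓ : integralClosure ℤ ℂ) ∈ M → ∀ (A B : Type) [Group A] [Finite A] [Group B] [Finite B]
  (p : A →* B), Function.Surjective p → ∀ z ∈ Subgroup.center A, orderOf z = ℓ →
  (∀ c : A, p c = 1 ↔ c ∈ Subgroup.zpowers z) → ∀ γ : A → FF M, IsIdem γ → ∀ κ₀ : B → ℂ,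
  IrrE M (H75.push p γ) = {κ₀} → Rc ℓ κ₀ → ∀ κ ∈ IrrE M γ,
    ∃ ω : ℂ, ω ^ ℓ = 1 ∧ (∀ (i : ℕ) (s : A), Reg ℓ s → κ (z ^ i * s) = ω ^ i * κ₀ (p s)) ∧
      ∀ x : A, (∀ (i : ℕ) (s : A), Reg ℓ s → x ≠ z ^ i * s) → κ x = 0

/-! ## 5. Defect groups -/

/-- FMG: the first main theorem. -/
def FmgStmt : Prop := ∀ (ℓ : ℕ) [Fact ℓ.Prime] (M : Ideal (integralClosure ℤ ℂ)) [M.IsMaximal],
  (ℓ : integralClosure ℤ ℂ) ∈ M → ∀ (G : Type) [Group G] [Finite G] (e : G → FF M), IsBlk e →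
  ∀ V : Subgroup G, Tp ℓ e V →
  -- every good subgroup is conjugate to a subgroup of `V`
  (∀ Q : Subgroup G, IsPGroup ℓ Q → Gd e Q → ∃ g : G, Q ≤ conjS g V) ∧
  -- the Brauer map gives a block of the normaliser of `V`, with the same defect group
  (IsBlk (fun t : Subgroup.normalizer (V : Set G) => br V e t) ∧
    Tp ℓ (fun t : Subgroup.normalizer (V : Set G) => br V e t)
      (V.subgroupOf (Subgroup.normalizer (V : Set G)))) ∧
  -- a defect class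
  ∃ y ∈ Subgroup.centralizer (V : Set G), e y ≠ 0 ∧
    ¬ ℓ ∣ V.relIndex (Subgroup.centralizer ({y} : Set G)) ∧
    ∃ c : G → FF M, IsCl c ∧ mulF (mulF c (clsum (FF M) (⊤ : Subgroup G) y)) e = e

/-- ORB: blocks of a normal subgroup `X` of `N` under the same block of `N` are conjugate. -/
def OrbStmt : Prop := ∀ (ℓ : ℕ) (F : Type) [Field F], GoodF ℓ F → ∀ (G : Type) [Group G] [Finite G]
  (N X : Subgroup G), X ≤ N → N ≤ Subgroup.normalizer (X : Set G) → ∀ f : G → F,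
  (∀ x, x ∉ X → f x = 0) → IsBlk (fun t : N => f t) → ∀ γ γ' : G → F, (∀ x, x ∉ X → γ x = 0) →
  (∀ x, x ∉ X → γ' x = 0) → IsBlk (fun t : X => γ t) → IsBlk (fun t : X => γ' t) →
  mulF f γ = γ → mulF f γ' = γ' → ∃ n ∈ N, ∀ x, γ' x = γ (n * x * n⁻¹)

/-- INX: the inertial index is prime to `ℓ`. -/
def InxStmt : Prop := ∀ (ℓ : ℕ) [Fact ℓ.Prime] (M : Ideal (integralClosure ℤ ℂ)) [M.IsMaximal],
  (ℓ : integralClosure ℤ ℂ) ∈ M → ∀ (G : Type) [Group G] [Finite G] (e : G → FF M), IsBlk e →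
  ∀ V : Subgroup G, Tp ℓ e V → (∀ a ∈ V, ∀ b ∈ V, a * b = b * a) → ∀ γ : G → FF M,
  (∀ x, x ∉ Subgroup.centralizer (V : Set G) → γ x = 0) →
  IsBlk (fun t : Subgroup.centralizer (V : Set G) => γ t) → mulF (br V e) γ = γ →
  ¬ ℓ ∣ (Subgroup.centralizer (V : Set G)).relIndex
    (Subgroup.normalizer (V : Set G) ⊓ stabF γ)

/-- OMG: the central character at the sum of the conjugates of `w b`. -/
def OmgStmt : Prop := ∀ (M : Ideal (integralClosure ℤ ℂ)) [M.IsMaximal] (G : Type) [Group G]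
  [Finite G] (u : G) (b : Cu u → FF M), IsIdem b → ∀ w ∈ Subgroup.zpowers u,
  IsCl (trc (Cu u) w b) ∧ ∀ χ ∈ Irr G,
    (Nat.card G * gbv (Cu u) w (eh M b) χ / (Nat.card (Cu u) * χ 1)) ∈ RM M ∧
    rr M (Nat.card G * gbv (Cu u) w (eh M b) χ / (Nat.card (Cu u) * χ 1)) =
      res M (trc (Cu u) w b) χ

/-- NZR: the central character of a block with an abelian defect group `V` at the sum of the
conjugates of `w b`, `w ∈ ⟨u⟩`, `u ∈ V`, `b` a block of `C(u)` with defect group `V`. -/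
def NzrStmt : Prop := ∀ (ℓ : ℕ) [Fact ℓ.Prime] (M : Ideal (integralClosure ℤ ℂ)) [M.IsMaximal],
  (ℓ : integralClosure ℤ ℂ) ∈ M → ∀ (G : Type) [Group G] [Finite G] (e : G → FF M), IsBlk e →
  ∀ V : Subgroup G, Tp ℓ e V → (∀ a ∈ V, ∀ b ∈ V, a * b = b * a) → ∀ u ∈ V,
  ∀ b : Cu u → FF M, IsBlk b → mulF (fun t : Cu u => e t) b = b → Gd b (V.subgroupOf (Cu u)) →
  ∀ w ∈ Subgroup.zpowers u, ∀ χ ∈ IrrE M e, res M (trc (Cu u) w b) χ ≠ 0

/-- NZ: the same for the numbers `χ(w b)`. -/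
def NzStmt : Prop := ∀ (ℓ : ℕ) [Fact ℓ.Prime] (M : Ideal (integralClosure ℤ ℂ)) [M.IsMaximal],
  (ℓ : integralClosure ℤ ℂ) ∈ M → ∀ (G : Type) [Group G] [Finite G] (e : G → FF M), IsBlk e →
  ∀ V : Subgroup G, Tp ℓ e V → (∀ a ∈ V, ∀ b ∈ V, a * b = b * a) → ∀ u ∈ V,
  ∀ b : Cu u → FF M, IsBlk b → mulF (fun t : Cu u => e t) b = b → Gd b (V.subgroupOf (Cu u)) →
  ∀ w ∈ Subgroup.zpowers u, ∀ χ ∈ IrrE M e, gbv (Cu u) w (eh M b) χ ≠ 0

/-! ## 6. Blocks with defect groups of order `ℓ` -/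

/-- KAP: the blocks of the centraliser of `v`, `⟨v⟩` a defect group of order `ℓ`. -/
def KapStmt : Prop := ∀ (ℓ : ℕ) [Fact ℓ.Prime] (M : Ideal (integralClosure ℤ ℂ)) [M.IsMaximal],
  (ℓ : integralClosure ℤ ℂ) ∈ M → ∀ (G H : Type) [Group G] [Finite G] [Group H] [Finite H]
  (e : G → FF M), IsBlk e → ∀ v : G, Tp ℓ e (Subgroup.zpowers v) → ∀ π : Cu v →* H, Qt ℓ v π →
  ∀ γ : Cu v → FF M, IsBlk γ → mulF (fun t : Cu v => e t) γ = γ →
  ∃ κ : H → ℂ, IrrE M (H75.push π γ) = {κ} ∧ Rc ℓ κ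

/-- VAL: the values at the singular elements. -/
def ValStmt : Prop := ∀ (ℓ : ℕ) [Fact ℓ.Prime] (M : Ideal (integralClosure ℤ ℂ)) [M.IsMaximal],
  (ℓ : integralClosure ℤ ℂ) ∈ M → ∀ (G H : Type) [Group G] [Finite G] [Group H] [Finite H]
  (e : G → FF M), IsBlk e → ∀ v : G, Tp ℓ e (Subgroup.zpowers v) → ∀ π : Cu v →* H, Qt ℓ v π →
  ∀ f ∈ Submodule.span ℂ (IrrE M e),
  (∀ γ : Cu v → FF M, IsBlk γ → mulF (fun t : Cu v => e t) γ = γ →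
    ∀ κ ∈ IrrE M (H75.push π γ), ∀ w ∈ Subgroup.zpowers v, w ≠ 1 → Av ℓ π w κ f = 0) →
  ∀ x : G, ¬ Reg ℓ x → f x = 0

/-- EIS: orthogonal vectors over the Eisenstein integers. -/
def EisStmt : Prop := ∀ (ι : Type) [Fintype ι] (ω : ℂ), IsPrimitiveRoot ω 3 → ∀ deg : ι → ℕ,
  (∀ i, deg i ≠ 0) → ∀ D : Set (ι → ℂ), D.Nonempty →
  (∀ δ ∈ D, (∀ i, δ i ≠ 0 ∧ ∃ a b : ℤ, δ i = a + b * ω) ∧
    ∑ i, δ i * starRingEnd ℂ (δ i) = 3 ∧ ∑ i, δ i * deg i = 0 ∧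
    (fun i => starRingEnd ℂ (δ i)) ∈ D) →
  (∀ δ ∈ D, ∀ δ' ∈ D, δ ≠ δ' → ∑ i, δ i * starRingEnd ℂ (δ' i) = 0) →
  (∃ a : ι → ℤ, ∑ i, a i * a i = 3 ∧ (∀ δ ∈ D, ∑ i, (a i : ℂ) * δ i = 0) ∧
    ∃ c : ℂ, ∀ i, (deg i : ℂ) = c * a i) ∨
  ∃ a b : ι → ℤ, ∑ i, a i * a i = 2 ∧ ∑ i, b i * b i = 2 ∧ ∑ i, a i * b i = 1 ∧
    (∀ δ ∈ D, ∑ i, (a i : ℂ) * δ i = 0 ∧ ∑ i, (b i : ℂ) * δ i = 0) ∧
    ∃ c d : ℂ, ∀ i, (deg i : ℂ) = c * a i + d * b i

/-- DT3: blocks with defect groups of order three. -/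
def Dt3Stmt : Prop := ∀ (M : Ideal (integralClosure ℤ ℂ)) [M.IsMaximal],
  ((3 : ℕ) : integralClosure ℤ ℂ) ∈ M → ∀ (G : Type) [Group G] [Finite G] (e : G → FF M),
  IsBlk e → ∀ V : Subgroup G, Tp 3 e V → Nat.card V = 3 → D3 M e

/-- K9: a block with a defect group of order nine has at most nine characters. -/
def K9Stmt : Prop := ∀ (M : Ideal (integralClosure ℤ ℂ)) [M.IsMaximal],
  ((3 : ℕ) : integralClosure ℤ ℂ) ∈ M → ∀ (G : Type) [Group G] [Finite G] (e : G → FF M),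
  IsBlk e → ∀ V : Subgroup G, Tp 3 e V → Nat.card V = 9 → (IrrE M e).ncard ≤ 9

/-! ## 7. Chains -/

/-- LBD: the number of modular characters. -/
def LbdStmt : Prop := ∀ (ℓ : ℕ) [Fact ℓ.Prime] (M : Ideal (integralClosure ℤ ℂ)) [M.IsMaximal],
  (ℓ : integralClosure ℤ ℂ) ∈ M → ∀ (G : Type) [Group G] [Finite G] (e : G → FF M), IsIdem e →
  e ≠ 0 → 1 ≤ {f : G → FF M | f ∈ IBr (FF M) G ∧ actF e f = f}.ncard ∧
    {f : G → FF M | f ∈ IBr (FF M) G ∧ actF e f = f}.ncard ≤ (IrrE M e).ncard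

/-- EXP: the chains if the good subgroups have order at most `ℓ ^ 2`. -/
def ExpStmt : Prop := ∀ (ℓ : ℕ) [Fact ℓ.Prime] (F : Type) [Field F], GoodF ℓ F → ∀ (G : Type)
  [Group G] [Finite G] (e : G → F), IsIdem e →
  (∀ Q : Subgroup G, IsPGroup ℓ Q → Gd e Q → Nat.card Q ≤ ℓ ^ 2) →
  YY ℓ ⊤ e = (Nat.card G : ℤ) * lnum (⊤ : Subgroup G) e
    - ∑ᶠ (Q : Subgroup G) (_ : Nat.card Q = ℓ),
        (Nat.card (Subgroup.normalizer (Q : Set G)) : ℤ) *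
          lnum (Subgroup.normalizer (Q : Set G)) e
    - ∑ᶠ (V : Subgroup G) (_ : Nat.card V = ℓ ^ 2),
        (Nat.card (Subgroup.normalizer (V : Set G)) : ℤ) *
          lnum (Subgroup.normalizer (V : Set G)) e
    + ∑ᶠ (Q : Subgroup G) (_ : Nat.card Q = ℓ), ∑ᶠ (V : Subgroup G)
        (_ : Nat.card V = ℓ ^ 2 ∧ Q ≤ V),
        (Nat.card (Subgroup.normalizer (Q : Set G) ⊓ Subgroup.normalizer (V : Set G) :
          Subgroup G) : ℤ) *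
          lnum (Subgroup.normalizer (Q : Set G) ⊓ Subgroup.normalizer (V : Set G)) e

/-- LBR: the `ℓ`-number of a subgroup `X` with a normal `ℓ`-subgroup `Q` depends only on `Br_Q(e)`,
and it is zero if `Q` is not good. -/
def LbrStmt : Prop := ∀ (ℓ : ℕ) (F : Type) [Field F], GoodF ℓ F → ∀ (G : Type) [Group G] [Finite G]
  (e : G → F), IsIdem e → ∀ Q X : Subgroup G, IsPGroup ℓ Q → Q ≤ X →
  X ≤ Subgroup.normalizer (Q : Set G) → lnum X e = lnum X (br Q e) ∧ (¬ Gd e Q → lnum X e = 0)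

/-- DUN: the blocks of the normaliser of `Q` under the block `e` have larger defect groups than
`Q` if `e` has. -/
def DunStmt : Prop := ∀ (ℓ : ℕ) [Fact ℓ.Prime] (M : Ideal (integralClosure ℤ ℂ)) [M.IsMaximal],
  (ℓ : integralClosure ℤ ℂ) ∈ M → ∀ (G : Type) [Group G] [Finite G] (e : G → FF M), IsBlk e →
  ∀ V : Subgroup G, Tp ℓ e V → ∀ Q : Subgroup G, IsPGroup ℓ Q → Nat.card Q < Nat.card V →
  ∀ f : Subgroup.normalizer (Q : Set G) → FF M, IsBlk f →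
  mulF (fun t : Subgroup.normalizer (Q : Set G) => br Q e t) f = f →
  ∃ P : Subgroup (Subgroup.normalizer (Q : Set G)), IsPGroup ℓ P ∧ Gd f P ∧
    Q.subgroupOf (Subgroup.normalizer (Q : Set G)) < P

/-- DUC: the blocks of the centraliser of a subgroup `Q` of order `ℓ` under a block with defect
groups of order `ℓ ^ 2`. -/
def DucStmt : Prop := ∀ (ℓ : ℕ) [Fact ℓ.Prime] (M : Ideal (integralClosure ℤ ℂ)) [M.IsMaximal],
  (ℓ : integralClosure ℤ ℂ) ∈ M → ∀ (G : Type) [Group G] [Finite G] (e : G → FF M), IsBlk e →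
  ∀ V : Subgroup G, Tp ℓ e V → Nat.card V = ℓ ^ 2 → ∀ Q : Subgroup G, Nat.card Q = ℓ →
  ∀ g : Subgroup.centralizer (Q : Set G) → FF M, IsBlk g →
  mulF (fun t : Subgroup.centralizer (Q : Set G) => e t) g = g →
  ∃ P : Subgroup (Subgroup.centralizer (Q : Set G)), Nat.card P = ℓ ^ 2 ∧ Gd g P ∧
    Q.subgroupOf (Subgroup.centralizer (Q : Set G)) ≤ P

/-- CHQ: the chains through a subgroup of order `ℓ` cancel. -/
def ChqStmt : Prop := ∀ (ℓ : ℕ) [Fact ℓ.Prime] (M : Ideal (integralClosure ℤ ℂ)) [M.IsMaximal],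
  (ℓ : integralClosure ℤ ℂ) ∈ M → ∀ (G : Type) [Group G] [Finite G] (e : G → FF M), IsBlk e →
  ∀ V : Subgroup G, Tp ℓ e V → Nat.card V = ℓ ^ 2 → ∀ Q : Subgroup G, Nat.card Q = ℓ →
  (Nat.card (Subgroup.normalizer (Q : Set G)) : ℤ) * lnum (Subgroup.normalizer (Q : Set G)) e =
    ∑ᶠ (W : Subgroup G) (_ : Nat.card W = ℓ ^ 2 ∧ Q ≤ W),
      (Nat.card (Subgroup.normalizer (Q : Set G) ⊓ Subgroup.normalizer (W : Set G) :
        Subgroup G) : ℤ) *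
        lnum (Subgroup.normalizer (Q : Set G) ⊓ Subgroup.normalizer (W : Set G)) e

/-- CHV: the alternating sum for a defect group of order `ℓ ^ 2`. -/
def ChvStmt : Prop := ∀ (ℓ : ℕ) [Fact ℓ.Prime] (M : Ideal (integralClosure ℤ ℂ)) [M.IsMaximal],
  (ℓ : integralClosure ℤ ℂ) ∈ M → ∀ (G : Type) [Group G] [Finite G] (e : G → FF M), IsBlk e →
  ∀ V : Subgroup G, Tp ℓ e V → Nat.card V = ℓ ^ 2 →
  YY ℓ ⊤ e = (Nat.card G : ℤ) * ({f : G → FF M | f ∈ IBr (FF M) G ∧ actF e f = f}.ncard : ℤ) -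
    (Nat.card G : ℤ) * ({f : Subgroup.normalizer (V : Set G) → FF M |
      f ∈ IBr (FF M) (Subgroup.normalizer (V : Set G)) ∧
      actF (fun t : Subgroup.normalizer (V : Set G) => br V e t) f = f}.ncard : ℤ)

end Pool.Agent.PP.K9
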