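import Pool.Agent.Helper57_K9.Stmts

/-!
# Squad K9, part KL: blocks with defect groups of order `ℓ ^ 2` have at most `ℓ ^ 2` characters

Text: `AWC_KL.md`.
-/

open scoped BigOperators

noncomputable section

namespace Pool.Agent.PP.K9

open Pool.Agent.Helper51_AWC Pool.Agent.Helper79_WRA Pool.Agent.PP Pool.Agent.PP.KF

attribute [local instance] Ideal.Quotient.field

/-- Virtual characters `g_i`, `h_ij` in `e` which vanish at the singular elements, with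
`c h_ij = w_j g_i - w_i g_j`: the conclusion for blocks with defect groups of order `ℓ`. -/
def DL (ℓ : ℕ) (M : Ideal (integralClosure ℤ ℂ)) [M.IsMaximal] {G : Type} [Group G]
    (e : G → FF M) : Prop :=
  ∃ (n m : ℕ) (c : ℤ) (w : Fin n → ℤ) (g : Fin n → G → ℂ) (h : Fin n → Fin n → G → ℂ),
    0 < n ∧ 0 < m ∧ c ≠ 0 ∧ (∀ i, w i ≠ 0) ∧ (∀ i, g i ∈ ZE M e ∧ Rc ℓ (g i)) ∧
    (∀ i j, h i j ∈ ZE M e ∧ Rc ℓ (h i j)) ∧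
    (∀ i j, (c : ℂ) • h i j = (w j : ℂ) • g i - (w i : ℂ) • g j) ∧
    2 * ∑ i, ipn (g i) (g i) + m * ∑ i, ∑ j, ipn (h i j) (h i j) = 2 * n * ℓ ∧
    ∃ d : Fin n → ℂ, pr M e = ∑ i, d i • g i

/-! ## 1. Arithmetic -/

/-- GAL: the conjugates of a nonzero element of `ℤ[ζ]`. -/
def GalStmt : Prop := ∀ (ℓ : ℕ) [Fact ℓ.Prime] (ζ : ℂ), IsPrimitiveRoot ζ ℓ → ∀ m : ℕ → ℤ,
  ∑ i ∈ Finset.range ℓ, (m i : ℂ) * ζ ^ i ≠ 0 →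
  ((ℓ : ℝ) - 1) ≤ ∑ j ∈ Finset.Ico 1 ℓ,
    Complex.normSq (∑ i ∈ Finset.range ℓ, (m i : ℂ) * ζ ^ (i * j))

/-- GRA: from orthogonal vectors over `ℤ[ζ]` to integral vectors with Gram matrix `I + e J`. -/
def GraStmt : Prop := ∀ (ℓ : ℕ) [Fact ℓ.Prime] (ι : Type) [Fintype ι] (ζ : ℂ),
  IsPrimitiveRoot ζ ℓ → ∀ (a : ι → ℕ → ℤ) (deg : ι → ℕ) (δ : ℕ → ι → ℂ),
  (∀ j i, δ j i = ∑ s ∈ Finset.range ℓ, (a i s : ℂ) * ζ ^ (s * j)) →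
  (∀ j ∈ Finset.Ico 1 ℓ, (∀ i, δ j i ≠ 0) ∧ ∑ i, δ j i * starRingEnd ℂ (δ j i) = ℓ ∧
    ∑ i, δ j i * deg i = 0) →
  (∀ j ∈ Finset.Ico 1 ℓ, ∀ j' ∈ Finset.Ico 1 ℓ, (∀ i, δ j i = δ j' i) ∨
    ∑ i, δ j i * starRingEnd ℂ (δ j' i) = 0) →
  ∃ (m e : ℕ) (b : Fin m → ι → ℤ) (cl : ℕ → Fin m), 0 < m ∧ m * e = ℓ - 1 ∧
    (∀ s ∈ Finset.Ico 1 ℓ, ∀ i, a i s - a i 0 = b (cl s) i) ∧
    (∀ j j', ∑ i, b j i * b j' i = (if j = j' then 1 else 0) + e) ∧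
    (∀ i, ∃ j, b j i ≠ 0) ∧ ∀ j, ∑ i, b j i * deg i = 0

/-- GRB: integral vectors with Gram matrix `I + e J`. -/
def GrbStmt : Prop := ∀ (m e : ℕ), 0 < m → ∀ (ι : Type) [Fintype ι] [DecidableEq ι]
  (b : Fin m → ι → ℤ), (∀ j j', ∑ i, b j i * b j' i = (if j = j' then 1 else 0) + e) →
  ∃ (r : Fin m → ι) (σ : Fin m → ℤ) (t : ℤ) (w : ι → ℤ), Function.Injective r ∧
    (∀ j, σ j * σ j = 1) ∧ (∀ j i, b j i = w i + if i = r j then σ j else 0) ∧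
    (∀ j, w (r j) = t * σ j) ∧ (m : ℤ) * t + 1 ≠ 0

/-- GRM: the vectors `g_i`, `h_ij`. -/
def GrmStmt : Prop := ∀ (ℓ : ℕ) [Fact ℓ.Prime] (ι : Type) [Fintype ι] (ζ : ℂ),
  IsPrimitiveRoot ζ ℓ → ∀ (a : ι → ℕ → ℤ) (deg : ι → ℕ) (δ : ℕ → ι → ℂ), (∀ i, deg i ≠ 0) →
  (∀ j i, δ j i = ∑ s ∈ Finset.range ℓ, (a i s : ℂ) * ζ ^ (s * j)) →
  (∀ j ∈ Finset.Ico 1 ℓ, (∀ i, δ j i ≠ 0) ∧ ∑ i, δ j i * starRingEnd ℂ (δ j i) = ℓ ∧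
    ∑ i, δ j i * deg i = 0) →
  (∀ j ∈ Finset.Ico 1 ℓ, ∀ j' ∈ Finset.Ico 1 ℓ, (∀ i, δ j i = δ j' i) ∨
    ∑ i, δ j i * starRingEnd ℂ (δ j' i) = 0) →
  ∃ (n m : ℕ) (c : ℤ) (w : Fin n → ℤ) (g : Fin n → ι → ℤ) (h : Fin n → Fin n → ι → ℤ),
    0 < n ∧ 0 < m ∧ c ≠ 0 ∧ (∀ r, w r ≠ 0) ∧
    (∀ r s x, c * h r s x = w s * g r x - w r * g s x) ∧
    (∀ j ∈ Finset.Ico 1 ℓ, (∀ r, ∑ x, (g r x : ℂ) * δ j x = 0) ∧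
      ∀ r s, ∑ x, (h r s x : ℂ) * δ j x = 0) ∧
    2 * ∑ r, ∑ x, g r x * g r x + m * ∑ r, ∑ s, ∑ x, h r s x * h r s x = 2 * n * ℓ ∧
    ∃ d : Fin n → ℂ, ∀ x, (deg x : ℂ) = ∑ r, d r * g r x

/-! ## 2. Blocks -/

/-- TRN: the blocks of the centraliser of `v` are conjugate. -/
def TrnStmt : Prop := ∀ (ℓ : ℕ) [Fact ℓ.Prime] (M : Ideal (integralClosure ℤ ℂ)) [M.IsMaximal],
  (ℓ : integralClosure ℤ ℂ) ∈ M → ∀ (G H : Type) [Group G] [Finite G] [Group H] [Finite H]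
  (e : G → FF M), IsBlk e → ∀ v : G, Tp ℓ e (Subgroup.zpowers v) → ∀ π : Cu v →* H, Qt ℓ v π →
  ∀ γ γ' : Cu v → FF M, IsBlk γ → IsBlk γ' → mulF (fun t : Cu v => e t) γ = γ →
  mulF (fun t : Cu v => e t) γ' = γ' → ∀ κ κ' : H → ℂ, IrrE M (H75.push π γ) = {κ} →
  IrrE M (H75.push π γ') = {κ'} → ∀ w ∈ Subgroup.zpowers v, w ≠ 1 →
  ∃ w' ∈ Subgroup.zpowers v, w' ≠ 1 ∧ ∀ χ ∈ Irr G, Av ℓ π w κ' χ = Av ℓ π w' κ χ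

/-- DTL: blocks with defect groups of order `ℓ`. -/
def DtlStmt : Prop := ∀ (ℓ : ℕ) [Fact ℓ.Prime] (M : Ideal (integralClosure ℤ ℂ)) [M.IsMaximal],
  (ℓ : integralClosure ℤ ℂ) ∈ M → ∀ (G : Type) [Group G] [Finite G] (e : G → FF M),
  IsBlk e → ∀ V : Subgroup G, Tp ℓ e V → Nat.card V = ℓ → DL ℓ M e

/-- KL: a block with a defect group of order `ℓ ^ 2` has at most `ℓ ^ 2` characters. -/
def KlStmt : Prop := ∀ (ℓ : ℕ) [Fact ℓ.Prime] (M : Ideal (integralClosure ℤ ℂ)) [M.IsMaximal],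
  (ℓ : integralClosure ℤ ℂ) ∈ M → ∀ (G : Type) [Group G] [Finite G] (e : G → FF M),
  IsBlk e → ∀ V : Subgroup G, Tp ℓ e V → Nat.card V = ℓ ^ 2 → (IrrE M e).ncard ≤ ℓ ^ 2

/-- CTL: blocks with a defect group of order `ℓ ^ 2` if `ℓ ^ 2` divides the alternating sum. -/
def CtlStmt : Prop := ∀ (ℓ : ℕ) [Fact ℓ.Prime] (M : Ideal (integralClosure ℤ ℂ)) [M.IsMaximal],
  (ℓ : integralClosure ℤ ℂ) ∈ M → ∀ (G : Type) [Group G] [Finite G], opCore ℓ G = ⊥ →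
  ∀ e : G → FF M, IsBlk e → Pos ℓ e ⊤ → ∀ V : Subgroup G, Tp ℓ e V → Nat.card V = ℓ ^ 2 →
  (∀ χ ∈ Irr G, res M e χ = 1 → ((ℓ ^ 2 : ℕ) : ℤ) ∣ altSum ℓ M χ) → YY ℓ ⊤ e = 0

end Pool.Agent.PP.K9
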