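import Pool.Agent.Helper57_K9.Gq9
import Pool.Agent.Helper66_DF.FinE

/-!
# Squad K9: the final theorem
-/

open scoped BigOperators

noncomputable section

namespace Pool.Agent.PP.K9.H57

open Pool.Agent.Helper51_AWC Pool.Agent.Helper79_WRA Pool.Agent.PP Pool.Agent.PP.KF

attribute [local instance] Ideal.Quotient.field

/-- the final theorem for defect groups of order at most nine modulo `O_3(N)` -/
theorem fin9 (relq : DF.RelQEStmt) (fst : DF.FstStmt) (gq9 : Gq9Stmt) : Fin9Stmt := by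
  intro M _ hM G _ _ hc N hN χ hχ ψ hψ hχψ hL hS
  obtain ⟨x, P, hx, hPC, hPp, hPi, h9⟩ := hS
  have hfact : Fact (Nat.Prime 3) := ⟨Nat.prime_three⟩
  have hn := H75.opCore_normal (A := G) 3
  have hnN : (opCore 3 N).Normal := H75.opCore_normal (A := N) 3
  refine DF.finI relq fst Nat.prime_three hM c9_subCl hc hN ?_ hχ hψ hχψ hL
    ⟨x, P, fun h1 => hx ?_, hPC, hPp, hPi, _, inferInstance,
      QuotientGroup.mk' ((opCore 3 N).subgroupOf P), ?_, ?_⟩
  · intro S _ _ _ _ _ D _ _ hO _ _ _ e he _ hpos hdf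
    exact gq9 M hM D hO e he hpos hdf
  · have hint : IsIntegral ℤ (omega (MonoidHom.id N) ψ x) :=
      Pool.Agent.Helper51_AWC.omega_integral _ hψ x
    rw [← Pool.Agent.Helper79_WRA.red_eq_iff hint isIntegral_zero, h1,
      Pool.Agent.Helper79_WRA.red_zero]
  · change Nat.card (P ⧸ (opCore 3 N).subgroupOf P) ∣ 9
    have h1 : Nat.card (P ⧸ (opCore 3 N).subgroupOf P) = (opCore 3 N).relIndex P := rfl
    rw [h1]
    obtain ⟨n, hn⟩ := (IsPGroup.iff_card).1 hPp
    have h2 : (opCore 3 N).relIndex P ∣ 3 ^ n := by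
      rw [← hn]
      exact Subgroup.index_dvd_card _
    obtain ⟨k, -, hk⟩ := (Nat.dvd_prime_pow Nat.prime_three).1 h2
    rw [hk] at h9 ⊢
    have hk2 : k ≤ 2 := by
      by_contra h3
      have h4 : 3 ^ 3 ≤ 3 ^ k := Nat.pow_le_pow_right (by norm_num) (by omega)
      omega
    exact pow_dvd_pow 3 hk2
  · intro u
    rw [QuotientGroup.mk'_apply, QuotientGroup.eq_one_iff]
    exact Subgroup.mem_subgroupOf

end Pool.Agent.PP.K9.H57
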