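import Pool.Agent.Helper57_K9.Stmts
import Pool.Agent.Helper66_ML.Stmts2

/-!
# Squad K9: the last rows

Text: `AWC_K9.md`.
-/

open scoped BigOperators

noncomputable section

namespace Pool.Agent.PP.K9

open Pool.Agent.Helper51_AWC Pool.Agent.Helper79_WRA Pool.Agent.PP Pool.Agent.PP.KF

attribute [local instance] Ideal.Quotient.field

/-- CT9: blocks with a noncyclic defect group of order nine, `O_3(G) = 1`. -/
def Ct9Stmt : Prop := ∀ (M : Ideal (integralClosure ℤ ℂ)) [M.IsMaximal],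
  ((3 : ℕ) : integralClosure ℤ ℂ) ∈ M → ∀ (G : Type) [Group G] [Finite G], opCore 3 G = ⊥ →
  ∀ e : G → FF M, IsBlk e → Pos 3 e ⊤ → ∀ V : Subgroup G, Tp 3 e V → Nat.card V = 9 →
  ¬ IsCyclic V → YY 3 ⊤ e = 0

/-- the groups whose order divides nine -/
def C9 : (Q : Type) → [Group Q] → Prop := fun Q _ => Nat.card Q ∣ 9

/-- GQ9: the hypothesis of the reduction theorem for the class `C9`. -/
def Gq9Stmt : Prop := ∀ (M : Ideal (integralClosure ℤ ℂ)) [M.IsMaximal],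
  ((3 : ℕ) : integralClosure ℤ ℂ) ∈ M → ∀ (G : Type) [Group G] [Finite G], opCore 3 G = ⊥ →
  ∀ e : G → FF M, IsIdem e → Pos 3 e ⊤ → DF.DfE 3 C9 e ⊤ → YY 3 ⊤ e = 0

/-- FIN: the final theorem. -/
def Fin9Stmt : Prop := ∀ (M : Ideal (integralClosure ℤ ℂ)) [M.IsMaximal],
  ((3 : ℕ) : integralClosure ℤ ℂ) ∈ M → ∀ (G : Type) [Group G] [Finite G],
  opCore 3 G ≤ Subgroup.center G → ∀ N : Subgroup G, N.Normal →
  ∀ χ ∈ Irr G, ∀ ψ ∈ Irr N, (∑ᶠ n : N, χ n * starRingEnd ℂ (ψ n)) ≠ 0 → LargeDefect 3 M ψ →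
  (∃ (x : N) (P : Subgroup N), ¬ Cong M (omega (MonoidHom.id N) ψ x) 0 ∧
    P ≤ Subgroup.centralizer ({x} : Set N) ∧ IsPGroup 3 P ∧
    ¬ 3 ∣ P.relIndex (Subgroup.centralizer ({x} : Set N)) ∧ (opCore 3 N).relIndex P ≤ 9) →
  altSum 3 M χ = 0

end Pool.Agent.PP.K9
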